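import Pool.Agent.W133.DQ.StC

/-!
The global angle function of the image of the horizontal vector field.
-/

set_option autoImplicit false

open scoped ContDiff
open Set Filter Topology

namespace Pool.Agent.W335.DQ

open Pool.Agent.W133.DQ

/-- Global angle functions of functions which are one outside a square. -/
theorem angle (W : P2 → ℂ) (hW : ContDiff ℝ ∞ W) (h0 : ∀ q, W q ≠ 0) (R : ℝ) (hR : 0 < R)
    (h1 : ∀ q : P2, R ≤ ‖q‖ → W q = 1) : ∃ φ : P2 → ℝ, ContDiff ℝ ∞ φ ∧
    (∀ p : P2, R ≤ ‖p‖ → φ p = 0) ∧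
    ∀ q, ∃ ρ : ℝ, 0 < ρ ∧ W q = ρ * Complex.exp (φ q * Complex.I) := by
  have hcs : HasCompactMulSupport W :=
    HasCompactMulSupport.intro (isCompact_closedBall (0 : P2) R) (fun q hq => h1 q (by
      rw [mem_closedBall_zero_iff, not_le] at hq
      exact hq.le))
  have huc : UniformContinuous W := hcs.uniformContinuous_of_continuous hW.continuous
  -- lower bound
  obtain ⟨m, hm, hmle⟩ : ∃ m : ℝ, 0 < m ∧ ∀ q, m ≤ ‖W q‖ := by
    obtain ⟨q0, -, hq0⟩ := (isCompact_closedBall (0 : P2) R).exists_isMinOn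
      ⟨0, by simp [hR.le]⟩ (hW.continuous.norm.continuousOn (s := Metric.closedBall (0 : P2) R))
    refine ⟨min ‖W q0‖ 1, lt_min (norm_pos_iff.mpr (h0 q0)) one_pos, fun q => ?_⟩
    by_cases hq : ‖q‖ ≤ R
    · exact (min_le_left _ _).trans (hq0 (by simpa using hq))
    · rw [h1 q (not_le.mp hq).le, norm_one]
      exact min_le_right _ _
  obtain ⟨δ', hδ', hδ⟩ := Metric.uniformContinuous_iff.mp huc m hm
  set δ : ℝ := δ' / 2 with hδdef
  have hδ0 : 0 < δ := by positivity
  -- the shifted points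
  set sh : ℕ → P2 → P2 := fun k q => (q.1 - k * δ, q.2) with hsh
  have hshs : ∀ k, ContDiff ℝ ∞ (sh k) := fun k =>
    (contDiff_fst.sub contDiff_const).prodMk contDiff_snd
  have hslit : ∀ k q, W (sh k q) / W (sh (k + 1) q) ∈ Complex.slitPlane := by
    intro k q
    have hd : dist (sh k q) (sh (k + 1) q) < δ' := by
      simp only [hsh, Prod.dist_eq, dist_self]
      rw [Real.dist_eq]
      have e : q.1 - (k : ℝ) * δ - (q.1 - ((k + 1 : ℕ) : ℝ) * δ) = δ := by push_cast; ring
      rw [e, abs_of_pos hδ0, max_eq_left hδ0.le]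
      linarith
    have h2 := hδ hd
    rw [dist_eq_norm] at h2
    have h3 : ‖W (sh k q) / W (sh (k + 1) q) - 1‖ < 1 := by
      have e : W (sh k q) / W (sh (k + 1) q) - 1 =
          (W (sh k q) - W (sh (k + 1) q)) / W (sh (k + 1) q) := by
        field_simp [h0]
      rw [e, norm_div, div_lt_one (norm_pos_iff.mpr (h0 _))]
      exact h2.trans_le (hmle _)
    left
    have h4 := (Complex.abs_re_le_norm (W (sh k q) / W (sh (k + 1) q) - 1)).trans_lt h3
    rw [Complex.sub_re, Complex.one_re, abs_lt] at h4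
    linarith [h4.1]
  set term : ℕ → P2 → ℝ := fun k q => (W (sh k q) / W (sh (k + 1) q)).arg with hterm
  have hterms : ∀ k, ContDiff ℝ ∞ (term k) := by
    intro k
    rw [contDiff_iff_contDiffAt]
    intro q
    have hd : ContDiffAt ℝ ∞ (fun q => W (sh k q) / W (sh (k + 1) q)) q := by
      have e1 : ContDiffAt ℝ ∞ (fun q => W (sh k q)) q := (hW.comp (hshs k)).contDiffAt
      have e2 : ContDiffAt ℝ ∞ (fun q => W (sh (k + 1) q)) q :=
        (hW.comp (hshs (k + 1))).contDiffAt
      simp only [div_eq_mul_inv]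
      exact e1.mul (e2.inv (h0 _))
    have hl : ContDiffAt ℝ ∞ Complex.log (W (sh k q) / W (sh (k + 1) q)) :=
      (Complex.contDiffAt_log (hslit k q)).restrict_scalars ℝ
    have hc := (Complex.imCLM.contDiff (n := ∞)).contDiffAt.comp q (hl.comp q hd)
    have e : (⇑Complex.imCLM ∘ Complex.log ∘ fun q => W (sh k q) / W (sh (k + 1) q)) = term k := by
      funext q'
      simp only [Function.comp_apply, Complex.imCLM_apply, Complex.log_im, hterm]
    rw [e] at hc
    exact hc
  have hone : ∀ (k : ℕ) (q : P2), q.1 - k * δ ≤ -R → W (sh k q) = 1 := by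
    intro k q hq
    apply h1
    have : ‖(sh k q).1‖ ≤ ‖sh k q‖ := norm_fst_le _
    refine le_trans ?_ this
    rw [Real.norm_eq_abs]
    have := neg_le_abs (sh k q).1
    simp only [hsh] at this ⊢
    linarith
  have htz : ∀ (k : ℕ) (q : P2), q.1 - k * δ ≤ -R → term k q = 0 := by
    intro k q hq
    simp only [hterm]
    rw [hone k q hq, hone (k + 1) q (by push_cast; nlinarith)]
    simp
  have htel : ∀ (K : ℕ) (q : P2), ∃ ρ : ℝ, 0 < ρ ∧ W q =
      ρ * Complex.exp ((∑ k ∈ Finset.range K, term k q : ℝ) * Complex.I) * W (sh K q) := by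
    intro K q
    induction K with
    | zero =>
      refine ⟨1, one_pos, ?_⟩
      simp [hsh]
    | succ K ih =>
      obtain ⟨ρ, hρ, h⟩ := ih
      refine ⟨ρ * ‖W (sh K q) / W (sh (K + 1) q)‖,
        mul_pos hρ (norm_pos_iff.mpr (div_ne_zero (h0 _) (h0 _))), ?_⟩
      have e := Complex.norm_mul_exp_arg_mul_I (W (sh K q) / W (sh (K + 1) q))
      have e2 : W (sh K q) = (W (sh K q) / W (sh (K + 1) q)) * W (sh (K + 1) q) :=
        (div_mul_cancel₀ _ (h0 _)).symm
      rw [Finset.sum_range_succ]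
      rw [h]
      conv_lhs => rw [e2, ← e]
      push_cast
      rw [add_mul, Complex.exp_add]
      ring
  set φ : P2 → ℝ := fun q => ∑ k ∈ Finset.range (⌈(q.1 + R) / δ⌉₊), term k q with hφ
  have hφK : ∀ (K : ℕ) (q : P2), (q.1 + R) / δ ≤ K → φ q = ∑ k ∈ Finset.range K, term k q := by
    intro K q hK
    have hle : ⌈(q.1 + R) / δ⌉₊ ≤ K := Nat.ceil_le.mpr hK
    simp only [hφ]
    refine Finset.sum_subset (Finset.range_subset_range.mpr hle) fun k _ hk => ?_
    rw [Finset.mem_range, not_lt] at hk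
    apply htz
    have h2 : (q.1 + R) / δ ≤ k := (Nat.le_ceil _).trans (by exact_mod_cast hk)
    rw [div_le_iff₀ hδ0] at h2
    linarith
  have hφs : ContDiff ℝ ∞ φ := by
    rw [contDiff_iff_contDiffAt]
    intro q
    obtain ⟨K, hK⟩ := exists_nat_gt ((q.1 + R) / δ)
    have hev : φ =ᶠ[𝓝 q] fun q => ∑ k ∈ Finset.range K, term k q := by
      have hc : Continuous fun q : P2 => (q.1 + R) / δ :=
        (continuous_fst.add continuous_const).div_const _
      filter_upwards [hc.continuousAt.eventually (gt_mem_nhds hK)] with q' hq'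
      exact hφK K q' hq'.le
    refine ContDiffAt.congr_of_eventuallyEq ?_ hev
    exact (ContDiff.sum fun k _ => hterms k).contDiffAt
  have hmain : ∀ q, ∃ ρ : ℝ, 0 < ρ ∧ W q = ρ * Complex.exp (φ q * Complex.I) := by
    intro q
    obtain ⟨ρ, hρ, h⟩ := htel ⌈(q.1 + R) / δ⌉₊ q
    refine ⟨ρ, hρ, ?_⟩
    rw [hone ⌈(q.1 + R) / δ⌉₊ q (by
      have h2 := Nat.le_ceil ((q.1 + R) / δ)
      rw [div_le_iff₀ hδ0] at h2
      linarith), mul_one] at h
    exact h
  have hy : ∀ q : P2, R ≤ |q.2| → φ q = 0 := by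
    intro q hq
    simp only [hφ]
    refine Finset.sum_eq_zero fun k _ => ?_
    have hw : ∀ k, W (sh k q) = 1 := fun k => h1 _ (by
      have : ‖(sh k q).2‖ ≤ ‖sh k q‖ := norm_snd_le _
      refine le_trans ?_ this
      rw [Real.norm_eq_abs]
      exact hq)
    simp only [hterm]
    rw [hw, hw]
    simp
  have hxm : ∀ q : P2, q.1 ≤ -R → φ q = 0 := by
    intro q hq
    rw [hφK 0 q (by
      rw [Nat.cast_zero]
      exact div_nonpos_of_nonpos_of_nonneg (by linarith) hδ0.le)]
    simp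
  have hxp : ∀ q : P2, R ≤ q.1 → φ q = 0 := by
    intro q hq
    have hint : ∀ y : ℝ, ∃ n : ℤ, φ (q.1, y) = n * (2 * Real.pi) := by
      intro y
      obtain ⟨ρ, hρ, h⟩ := hmain (q.1, y)
      rw [h1 (q.1, y) (by
        have : ‖((q.1, y) : P2).1‖ ≤ ‖((q.1, y) : P2)‖ := norm_fst_le _
        refine le_trans ?_ this
        rw [Real.norm_eq_abs]
        exact hq.trans (le_abs_self _))] at h
      have hn := congrArg norm h
      rw [norm_mul, Complex.norm_exp_ofReal_mul_I, norm_one, mul_one, Complex.norm_real,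
        Real.norm_of_nonneg hρ.le] at hn
      rw [← hn, Complex.ofReal_one, one_mul] at h
      obtain ⟨n, hn'⟩ := Complex.exp_eq_one_iff.mp h.symm
      refine ⟨n, ?_⟩
      have h5 : ((φ (q.1, y) : ℝ) : ℂ) = ((n * (2 * Real.pi) : ℝ) : ℂ) := by
        apply mul_right_cancel₀ Complex.I_ne_zero
        rw [hn']
        push_cast
        ring
      exact_mod_cast h5
    have hcont : Continuous fun y : ℝ => φ (q.1, y) :=
      hφs.continuous.comp (continuous_const.prodMk continuous_id)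
    have hR0 : φ (q.1, R) = 0 := hy _ (le_abs_self R)
    have hpi : ∀ y : ℝ, φ (q.1, y) ≠ Real.pi ∧ φ (q.1, y) ≠ -Real.pi := by
      intro y
      obtain ⟨n, hn⟩ := hint y
      constructor
      · intro h
        rw [hn] at h
        have h6 : ((2 * n : ℤ) : ℝ) = ((1 : ℤ) : ℝ) := by
          push_cast
          have := Real.pi_pos
          nlinarith [mul_left_cancel₀ (Real.pi_ne_zero) (show Real.pi * (2 * (n : ℝ)) =
            Real.pi * 1 by linarith)]
        have : 2 * n = 1 := by exact_mod_cast h6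
        omega
      · intro h
        rw [hn] at h
        have h6 : ((2 * n : ℤ) : ℝ) = ((-1 : ℤ) : ℝ) := by
          push_cast
          have := mul_left_cancel₀ (Real.pi_ne_zero) (show Real.pi * (2 * (n : ℝ)) =
            Real.pi * (-1) by linarith)
          linarith
        have : 2 * n = -1 := by exact_mod_cast h6
        omega
    obtain ⟨n, hn⟩ := hint q.2
    have hq2 : φ q = φ (q.1, q.2) := rfl
    rw [hq2]
    rcases lt_trichotomy n 0 with h | h | h
    · exfalso
      have hle : φ (q.1, q.2) ≤ -Real.pi := by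
        rw [hn]
        have : (n : ℝ) ≤ -1 := by exact_mod_cast (show n ≤ -1 by omega)
        nlinarith [Real.pi_pos]
      obtain ⟨y', hy'⟩ := intermediate_value_univ q.2 R hcont
        (show -Real.pi ∈ Icc (φ (q.1, q.2)) (φ (q.1, R)) from
          ⟨hle, by rw [hR0]; linarith [Real.pi_pos]⟩)
      exact (hpi y').2 hy'
    · rw [hn, h]; simp
    · exfalso
      have hle : Real.pi ≤ φ (q.1, q.2) := by
        rw [hn]
        have : (1 : ℝ) ≤ n := by exact_mod_cast (show 1 ≤ n by omega)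
        nlinarith [Real.pi_pos]
      obtain ⟨y', hy'⟩ := intermediate_value_univ R q.2 hcont
        (show Real.pi ∈ Icc (φ (q.1, R)) (φ (q.1, q.2)) from
          ⟨by rw [hR0]; linarith [Real.pi_pos], hle⟩)
      exact (hpi y').1 hy'
  refine ⟨φ, hφs, fun p hp => ?_, hmain⟩
  have hmax : ‖p‖ = max |p.1| |p.2| := by
    rw [Prod.norm_def, Real.norm_eq_abs, Real.norm_eq_abs]
  rw [hmax] at hp
  rcases le_max_iff.mp hp with h | h
  · rcases le_abs.mp h with h | h
    · exact hxp p h
    · exact hxm p (by linarith)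
  · exact hy p h

/-- the global angle function of `f_* ∂_x`. -/
theorem t_ANGLE : S_ANGLE := by
  rintro f ⟨⟨hf, hfi⟩, R₀, hR₀⟩
  set V : P2 → P2 := fun q => fderiv ℝ (fun p => f p) (f⁻¹ q) (1, 0) with hV
  have hfd : ContDiff ℝ ∞ (fderiv ℝ (fun p => f p)) := hf.fderiv_right (by simp)
  have hVs : ContDiff ℝ ∞ V := (hfd.comp hfi).clm_apply contDiff_const
  have hinv : ∀ p, f⁻¹ (f p) = p := fun p => f.symm_apply_apply p
  have hinv' : ∀ p, f (f⁻¹ p) = p := fun p => f.apply_symm_apply p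
  have hV0 : ∀ q, V q ≠ 0 := by
    intro q hq
    have hd1 : HasFDerivAt (fun p => f p) (fderiv ℝ (fun p => f p) (f⁻¹ q)) (f⁻¹ q) :=
      (hf.differentiable (by simp) _).hasFDerivAt
    have hd2 : HasFDerivAt (fun p => f⁻¹ p) (fderiv ℝ (fun p => f⁻¹ p) (f (f⁻¹ q))) (f (f⁻¹ q)) :=
      (hfi.differentiable (by simp) _).hasFDerivAt
    have hd3 := hd2.comp (f⁻¹ q) hd1
    have e : ((fun p => f⁻¹ p) ∘ fun p => f p) = id := by
      funext p; exact hinv p
    rw [e] at hd3
    have h4 := hd3.unique (hasFDerivAt_id (f⁻¹ q))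
    have h5 := congrArg (fun L : P2 →L[ℝ] P2 => L (1, 0)) h4
    simp only [ContinuousLinearMap.comp_apply, ContinuousLinearMap.id_apply] at h5
    have h6 : fderiv ℝ (fun p => f p) (f⁻¹ q) (1, 0) = 0 := hq
    rw [h6, map_zero] at h5
    have := congrArg Prod.fst h5
    simp at this
  set R : ℝ := |R₀| + 1 with hRdef
  have hR : 0 < R := by positivity
  have hV1 : ∀ q : P2, R ≤ ‖q‖ → V q = (1, 0) := by
    intro q hq
    have hq0 : R₀ < ‖q‖ := by
      have := le_abs_self R₀
      linarith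
    have hfq : f q = q := hR₀ q hq0
    have hfiq : f⁻¹ q = q := by rw [Equiv.Perm.inv_eq_iff_eq, hfq]
    have hev : (fun p => f p) =ᶠ[𝓝 q] id := by
      have hopen : IsOpen {p : P2 | R₀ < ‖p‖} := isOpen_lt continuous_const continuous_norm
      filter_upwards [hopen.mem_nhds hq0] with p hp
      exact hR₀ p hp
    simp only [hV]
    rw [hfiq, hev.fderiv_eq, fderiv_id]
    rfl
  set W : P2 → ℂ := fun q => ((V q).1 : ℂ) + ((V q).2 : ℂ) * Complex.I with hWdef
  have hWs : ContDiff ℝ ∞ W := by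
    have e1 : ContDiff ℝ ∞ fun q => ((V q).1 : ℂ) :=
      Complex.ofRealCLM.contDiff.comp (contDiff_fst.comp hVs)
    have e2 : ContDiff ℝ ∞ fun q => ((V q).2 : ℂ) :=
      Complex.ofRealCLM.contDiff.comp (contDiff_snd.comp hVs)
    exact e1.add (e2.mul contDiff_const)
  have hWre : ∀ q, (W q).re = (V q).1 := fun q => by simp [hWdef]
  have hWim : ∀ q, (W q).im = (V q).2 := fun q => by simp [hWdef]
  have hW0 : ∀ q, W q ≠ 0 := by
    intro q hq
    apply hV0 q
    have h1 := hWre q
    have h2 := hWim q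
    rw [hq] at h1 h2
    exact Prod.ext h1.symm h2.symm
  have hW1 : ∀ q : P2, R ≤ ‖q‖ → W q = 1 := by
    intro q hq
    simp only [hWdef]
    rw [hV1 q hq]
    simp
  obtain ⟨φ, h1, h2, h3⟩ := angle W hWs hW0 R hR hW1
  refine ⟨φ, h1, ⟨R, hR, h2⟩, fun p => ?_⟩
  obtain ⟨ρ, hρ, h⟩ := h3 (f p)
  refine ⟨ρ, hρ, ?_⟩
  have hVp : V (f p) = fderiv ℝ (fun q => f q) p (1, 0) := by
    simp only [hV]
    rw [hinv p]
  rw [← hVp]
  have hre := congrArg Complex.re h
  have him := congrArg Complex.im h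
  rw [hWre, Complex.re_ofReal_mul, Complex.exp_ofReal_mul_I_re] at hre
  rw [hWim, Complex.im_ofReal_mul, Complex.exp_ofReal_mul_I_im] at him
  exact Prod.ext hre him

end Pool.Agent.W335.DQ
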